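import Mathlib
import Pool.Agent.H33.MN.Iface

/-!
# MP_5ee2d0_ag, Theorems M and N, section 5: nef classes on a canonical threefold

`Y` is a simply connected projective threefold with canonical singularities, trivial canonical class
and `H^1(O) = H^2(O) = 0`: the threefold `X` itself, or an irreducible special fibre `X_b` of a
`K`-trivial degeneration of `X` (type F; `π_1(X) → π_1(X_b)` is onto), over the complex numbers.
`H` is a very ample class, `S = S_j` a very general member of `|(j + 1) H|`, a surface with Du Val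
singularities which contains no curve of the singular locus of `Y`, and `S'` its minimal resolution.

`CY.of_any`: if `x` is nef, `x ≠ 0` and `H^i(Y, x) ≠ 0` for some `i` then `x` is semiample.
`TypeF.dichotomy`: the same for a germ of type F.
-/

namespace Pool.Agent.H13.MN

/-- additive maps -/
def Add {A B : Type} [AddCommGroup A] [AddCommGroup B] (f : A → B) : Prop :=
  ∀ x y, f (x + y) = f x + f y

section

variable {A B : Type} [AddCommGroup A] [AddCommGroup B] {f : A → B}

lemma Add.zsmul (h : Add f) (k : ℤ) (x : A) : f (k • x) = k • f x :=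
  map_zsmul (AddMonoidHom.mk' f h) k x

lemma Add.sub (h : Add f) (x y : A) : f (x - y) = f x - f y :=
  map_sub (AddMonoidHom.mk' f h) x y

end

/-- The data of the canonical threefold `Y`. -/
structure Shape where
  /-- the Picard group -/
  P : Type
  /-- the divisor class group -/
  C : Type
  /-- locally free sheaves of rank two -/
  BY : Type
  /-- the Picard group of `S'` -/
  G : ℕ → Type
  /-- the divisor class group of `S` -/
  K : ℕ → Type
  /-- locally free sheaves of rank two on `S'` -/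
  B : ℕ → Type
  [grpP : AddCommGroup P]
  [grpC : AddCommGroup C]
  [grpG : ∀ j, AddCommGroup (G j)]
  [grpK : ∀ j, AddCommGroup (K j)]
  /-- the intersection form -/
  T : P → P → P → ℤ
  /-- the linear form of the Riemann-Roch theorem (the second Chern class of a crepant terminal
  model) -/
  c : P → ℤ
  /-- the dimension of `H^i(Y, x)` -/
  h : Fin 4 → P → ℕ
  /-- nef classes -/
  Nef : P → Prop
  /-- semiample classes -/
  SA : P → Prop
  /-- a very ample class -/
  H : P
  /-- the Weil divisor class of a line bundle -/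
  incl : P → C
  /-- the degree `H^2.y` of a Weil divisor class -/
  deg : C → ℤ
  /-- effective Weil divisor classes -/
  EffC : C → Prop
  /-- the first Chern class -/
  c1 : BY → P
  /-- the degree `c_2(E).H` -/
  c2H : BY → ℤ
  /-- slope stability with respect to `H` -/
  Stable : BY → Prop
  /-- the pull-back of line bundles from `Y` to `S'` -/
  res : ∀ j, P → G j
  /-- the pull-back of sheaves from `Y` to `S'` -/
  resB : ∀ j, BY → B j
  /-- the intersection form of `S'` -/
  I : ∀ j, G j → G j → ℤ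
  /-- effective classes of `S'` -/
  Eff : ∀ j, G j → Prop
  /-- the direct image of divisors from `S'` to `S` -/
  push : ∀ j, G j → K j
  /-- the restriction of Weil divisors from `Y` to `S` -/
  resC : ∀ j, C → K j
  /-- effective classes of `S` -/
  EffK : ∀ j, K j → Prop
  /-- the second Chern class of a sheaf on `S'` -/
  c2 : ∀ j, B j → ℤ
  /-- `Sub j E N F w`: `c_1(E) = N` and there is an exact sequence `0 → O(F) → E → I_W(N - F) → 0` on
  `S'`, `W` of length `w` -/
  Sub : ∀ j, B j → G j → G j → ℕ → Prop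

attribute [instance] Shape.grpP Shape.grpC Shape.grpG Shape.grpK

/-- Restriction of divisors to the surfaces `S` and `S'`. -/
structure Shape.Restriction (Y : Shape) : Prop where
  add_push : ∀ j, Add (Y.push j)
  add_resC : ∀ j, Add (Y.resC j)
  form : ∀ j x y, Y.I j (Y.res j x) (Y.res j y) = (j + 1) * Y.T Y.H x y
  compat : ∀ j x, Y.push j (Y.res j x) = Y.resC j (Y.incl x)
  /-- Lefschetz theorem for the pair `(Y - Sing Y, S - Sing Y)` (Goresky and MacPherson; Ravindra and
  Srinivas): the restriction of divisor classes is injective -/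
  inj : ∀ j y, Y.resC j y = 0 → y = 0
  /-- the same theorem for the first and second cohomology groups of `Y - Sing Y` with coefficients
  `ℤ / k`, and the Kummer sequence: the cokernel of the restriction is torsion free -/
  sat : ∀ j (k : ℤ) z y, k ≠ 0 → k • z = Y.resC j y → ∃ y', z = Y.resC j y'

/-- Divisors on the surfaces `S` and `S'`. -/
structure Shape.Surfaces (Y : Shape) : Prop where
  add_I : ∀ j x, Add (Y.I j x)
  symm : ∀ j x y, Y.I j x y = Y.I j y x
  /-- Hodge index theorem; `H^1(S', O) = 0`, so numerically trivial classes are torsion -/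
  index : ∀ j F, Y.I j (Y.res j Y.H) F = 0 → 0 ≤ Y.I j F F → ∃ k : ℤ, k ≠ 0 ∧ k • F = 0
  nef_eff : ∀ j x F, Y.Nef x → Y.Eff j F → 0 ≤ Y.I j (Y.res j x) F
  /-- an effective torsion class is zero -/
  eff_tors : ∀ j F (k : ℤ), Y.Eff j F → k ≠ 0 → k • F = 0 → F = 0
  push_eff : ∀ j F, Y.Eff j F → Y.EffK j (Y.push j F)
  /-- Chern classes of the sheaves in the exact sequence -/
  chern : ∀ j E N F w, Y.Sub j E N F w → Y.c2 j E = Y.I j F (N - F) + w

/-- Line bundles on `Y`. -/
structure Shape.Lines (Y : Shape) : Prop where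
  symm12 : ∀ x y z, Y.T x y z = Y.T y x z
  symm23 : ∀ x y z, Y.T x y z = Y.T x z y
  nef_H : Y.Nef Y.H
  nef_mul : ∀ (k : ℤ) x, 0 < k → (Y.Nef (k • x) ↔ Y.Nef x)
  sa_mul : ∀ (k : ℤ) x, 0 < k → (Y.SA (k • x) ↔ Y.SA x)
  sa_zero : Y.SA 0
  /-- intersection numbers of nef classes are not negative -/
  nonneg : ∀ x y z, Y.Nef x → Y.Nef y → Y.Nef z → 0 ≤ Y.T x y z
  /-- Hodge index theorem and Lefschetz theorem; the Picard group is torsion free because `Y` is
  simply connected -/
  index : ∀ z, Y.T Y.H Y.H z = 0 → Y.T Y.H z z = 0 → z = 0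
  /-- Miyaoka -/
  miyaoka : ∀ x, Y.Nef x → 0 ≤ Y.c x

/-- Cohomology of line bundles on `Y`. -/
structure Shape.Cohomology (Y : Shape) : Prop where
  /-- Riemann-Roch theorem -/
  rr : ∀ x, 12 * ((Y.h 0 x : ℤ) - Y.h 1 x + Y.h 2 x - Y.h 3 x) = 2 * Y.T x x x + Y.c x
  /-- Serre duality -/
  serre : ∀ i x, Y.h i (-x) = Y.h (Fin.rev i) x
  h0_neg : ∀ x, Y.Nef x → x ≠ 0 → Y.h 0 (-x) = 0
  /-- Kawamata-Viehweg vanishing theorem -/
  kv : ∀ x, Y.Nef x → Y.T Y.H x x ≠ 0 → Y.h 2 x = 0
  /-- Keel, Matsuki and McKernan: effective nef classes -/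
  kmm : ∀ x, Y.Nef x → Y.h 0 x ≠ 0 → Y.SA x

/-- Weil divisors on `Y`. -/
structure Shape.Weil (Y : Shape) : Prop where
  add_incl : Add Y.incl
  add_deg : Add Y.deg
  deg_incl : ∀ x, Y.deg (Y.incl x) = Y.T Y.H Y.H x
  /-- the divisor class group is finitely generated -/
  tors_fin : {y : Y.C | ∃ k : ℤ, k ≠ 0 ∧ k • y = 0}.Finite
  eff_mul : ∀ (k : ℤ) y, 0 < k → Y.EffC y → Y.EffC (k • y)
  eff_incl : ∀ x, Y.EffC (Y.incl x) → Y.h 0 x ≠ 0
  /-- Serre, Enriques, Severi and Zariski: `H^1(Y, O(y - (j + 1) H)) = 0` for large `j`; `S` does not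
  contain the finitely many points where `O(y)` is not Cohen-Macaulay -/
  lift : ∀ y, ∃ j0 : ℕ, ∀ j, j0 ≤ j → Y.EffK j (Y.resC j y) → Y.EffC y

/-- Vector bundles of rank two on `Y`. -/
structure Shape.Bundles (Y : Shape) : Prop where
  c2_res : ∀ j E, Y.c2 j (Y.resB j E) = (j + 1) * Y.c2H E
  /-- Bogomolov, Donaldson, Uhlenbeck and Yau on a resolution `m : Y' → Y`: for a small `ε > 0` and an
  exceptional divisor `Γ ≥ 0` with `- Γ` relatively ample the pull-back `E'` of a stable `E` is stable
  for the ample class `m^*H - ε Γ`, and `c_1(E')^2.Γ = c_2(E').Γ = 0` (projection formula); so in the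
  case of equality `E'` is projectively flat, hence `End E'` is trivial, because `Y'` is simply
  connected (Takayama), and `E` is not simple (compare Greb, Kebekus and Peternell) -/
  bog : ∀ E, Y.Stable E → Y.T Y.H (Y.c1 E) (Y.c1 E) < 4 * Y.c2H E
  /-- the restriction of a destabilising subsheaf of rank one to `S`, pulled back to `S'` and
  saturated -/
  unstable : ∀ E, ¬ Y.Stable E → ∀ j, ∃ F w, Y.Sub j (Y.resB j E) (Y.res j (Y.c1 E)) F w ∧
    Y.I j (Y.res j Y.H) (Y.res j (Y.c1 E)) ≤ 2 * Y.I j (Y.res j Y.H) F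
  /-- a nonzero element of `H^1(Y, -x)` is a nonsplit extension `E` of `O(x)` by `O`; its restriction
  to `S'` is not split (Kawamata-Viehweg: `H^1(Y, -x - (j + 1) H) = 0`); a subsheaf `O(F)` of positive
  degree maps to `O(x)`, this map is not zero and not an isomorphism -/
  ext : ∀ x, Y.Nef x → Y.h 1 (-x) ≠ 0 → ∃ E, Y.c1 E = x ∧ Y.c2H E = 0 ∧
    ∀ j F w, Y.Sub j (Y.resB j E) (Y.res j x) F w → 0 < Y.I j (Y.res j Y.H) F →
      Y.Eff j (Y.res j x - F) ∧ Y.res j x ≠ F

/-- A simply connected canonical threefold with `K = 0` and `H^1(O) = H^2(O) = 0`. -/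
structure CY extends Shape where
  restriction : toShape.Restriction
  surfaces : toShape.Surfaces
  lines : toShape.Lines
  coh : toShape.Cohomology
  weil : toShape.Weil
  bundles : toShape.Bundles

namespace CY

variable (D : CY)

private lemma deg_pos (x : D.P) (hx : D.Nef x) (hx0 : x ≠ 0) (hsq : D.T D.H x x = 0) :
    0 < D.T D.H D.H x := by
  rcases (D.lines.nonneg _ _ _ D.lines.nef_H D.lines.nef_H hx).eq_or_lt with h | h
  · exact absurd (D.lines.index x h.symm hsq) hx0
  · exact h

private lemma I_sub (j : ℕ) (a b c : D.G j) : D.I j (a - b) c = D.I j a c - D.I j b c := by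
  rw [D.surfaces.symm, (D.surfaces.add_I j c).sub, D.surfaces.symm j c a, D.surfaces.symm j c b]

private lemma I_smul (j : ℕ) (k : ℤ) (a c : D.G j) : D.I j (k • a) c = k * D.I j a c := by
  rw [D.surfaces.symm, (D.surfaces.add_I j c).zsmul, D.surfaces.symm j c a, smul_eq_mul]

/-- If `x` is nef, `x^2 = 0` and `H^1(Y, -x) ≠ 0` then a positive rational multiple `y` of `x`, at
most one half of `x`, is a Weil divisor class with effective restriction to `S`. -/
theorem destab (x : D.P) (hx : D.Nef x) (hsq : D.T D.H x x = 0) (hpos : 0 < D.T D.H D.H x)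
    (h1 : D.h 1 (-x) ≠ 0) (j : ℕ) :
    ∃ (y : D.C) (a b : ℤ), 0 < b ∧ 2 * b ≤ a ∧ a • y = b • D.incl x ∧
      D.EffK j (D.resC j y) := by
  obtain ⟨E, hE1, hE2, hE⟩ := D.bundles.ext x hx h1
  have hst : ¬ D.Stable E := by
    intro hs
    have h2 := D.bundles.bog E hs
    rw [hE1, hE2, hsq] at h2
    simp at h2
  obtain ⟨F, w, hF, hdeg⟩ := D.bundles.unstable E hst j
  rw [hE1] at hdeg hF
  have hch := D.surfaces.chern j _ _ F w hF
  rw [D.bundles.c2_res, hE2, mul_zero] at hch
  have hE := hE j F w hF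
  have hAN : 0 < D.I j (D.res j D.H) (D.res j x) := by
    rw [D.restriction.form]
    exact mul_pos (by positivity) hpos
  have hNN : D.I j (D.res j x) (D.res j x) = 0 := by rw [D.restriction.form, hsq, mul_zero]
  obtain ⟨hZ, hne⟩ := hE (by linarith)
  obtain ⟨Z, hZd⟩ : ∃ Z, Z = D.res j x - F := ⟨_, rfl⟩
  have hFd : F = D.res j x - Z := by rw [hZd]; abel
  have hS := D.surfaces.add_I j
  rw [← hZd] at hZ hch
  have hZ0 : Z ≠ 0 := by
    rw [hZd]
    exact sub_ne_zero.2 hne
  have e1 := D.surfaces.nef_eff j x Z hx hZ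
  have e2 := D.surfaces.nef_eff j D.H Z D.lines.nef_H hZ
  rw [hFd, D.I_sub, D.surfaces.symm j Z] at hch
  rw [hFd, (hS _).sub] at hdeg
  have hw : (0 : ℤ) ≤ (w : ℤ) := Int.natCast_nonneg w
  have hZZ : D.I j (D.res j x) Z ≤ D.I j Z Z := by linarith
  have e3 : 0 < D.I j (D.res j D.H) Z := by
    rcases e2.eq_or_lt with h | h
    · obtain ⟨k, hk, hkZ⟩ := D.surfaces.index j Z h.symm (e1.trans hZZ)
      exact absurd (D.surfaces.eff_tors j Z k hZ hk hkZ) hZ0
    · exact h
  obtain ⟨a, ha⟩ : ∃ a, a = D.I j (D.res j D.H) (D.res j x) := ⟨_, rfl⟩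
  obtain ⟨b, hb⟩ : ∃ b, b = D.I j (D.res j D.H) Z := ⟨_, rfl⟩
  rw [← ha] at hdeg hAN
  rw [← hb] at hdeg e3
  have hab : 2 * b ≤ a := by linarith
  -- the class `a Z - b x` is orthogonal to `H` and has square at least zero
  obtain ⟨k, hk, hkY⟩ : ∃ k : ℤ, k ≠ 0 ∧ k • (a • Z - b • D.res j x) = 0 := by
    apply D.surfaces.index
    · rw [(hS _).sub, (hS _).zsmul, (hS _).zsmul, ← ha, ← hb, smul_eq_mul, smul_eq_mul, mul_comm,
        sub_self]
    · have e4 : D.I j (a • Z - b • D.res j x) (a • Z - b • D.res j x) =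
          a * a * D.I j Z Z - 2 * a * b * D.I j (D.res j x) Z +
            b * b * D.I j (D.res j x) (D.res j x) := by
        have e6 := fun u => (hS u).sub
        have e7 := fun u => (hS u).zsmul
        simp only [D.I_sub, D.I_smul, e6, e7, smul_eq_mul]
        rw [D.surfaces.symm j Z (D.res j x)]
        ring
      rw [e4, hNN, mul_zero, add_zero]
      have e5 : a * a * D.I j (D.res j x) Z ≤ a * a * D.I j Z Z :=
        mul_le_mul_of_nonneg_left hZZ (mul_self_nonneg a)
      have e6 : 0 ≤ a * (a - 2 * b) * D.I j (D.res j x) Z :=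
        mul_nonneg (mul_nonneg hAN.le (by linarith)) e1
      linarith
  have hkk : 0 < k * k := mul_self_pos.2 hk
  have hZx : (k * k * a) • Z = (k * k * b) • D.res j x := by
    have h2 : (k * k * a) • Z - (k * k * b) • D.res j x =
        k • (k • (a • Z - b • D.res j x)) := by
      simp only [smul_sub, smul_smul, mul_assoc]
    rw [hkY, smul_zero] at h2
    exact sub_eq_zero.1 h2
  have hka : 0 < k * k * a := mul_pos hkk hAN
  have hkb : 0 < k * k * b := mul_pos hkk e3
  have hpush : (k * k * a) • D.push j Z = D.resC j ((k * k * b) • D.incl x) := by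
    rw [← (D.restriction.add_push j).zsmul, hZx, (D.restriction.add_push j).zsmul,
      (D.restriction.add_resC j).zsmul, D.restriction.compat]
  obtain ⟨y, hy⟩ := D.restriction.sat j _ _ _ hka.ne' hpush
  refine ⟨y, k * k * a, k * k * b, hkb, ?_, ?_, ?_⟩
  · have := mul_le_mul_of_nonneg_left hab hkk.le
    linarith
  · have h3 : D.resC j ((k * k * a) • y - (k * k * b) • D.incl x) = 0 := by
      rw [(D.restriction.add_resC j).sub, (D.restriction.add_resC j).zsmul, ← hy, hpush, sub_self]
    exact sub_eq_zero.1 (D.restriction.inj j _ h3)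
  · rw [← hy]
    exact D.surfaces.push_eff j _ hZ

/-- the set of the Weil divisor classes `y` with `a y = b x`, `0 < 2 b ≤ a`, is finite -/
private lemma fin_set (x : D.P) (hpos : 0 < D.T D.H D.H x) :
    {y : D.C | ∃ a b : ℤ, 0 < b ∧ 2 * b ≤ a ∧ a • y = b • D.incl x}.Finite := by
  have key : ∀ (y : D.C) (a b : ℤ), a • y = b • D.incl x →
      a * D.deg y = b * D.T D.H D.H x := by
    intro y a b h
    have h1 := congrArg D.deg h
    rw [D.weil.add_deg.zsmul, D.weil.add_deg.zsmul, D.weil.deg_incl, smul_eq_mul,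
      smul_eq_mul] at h1
    exact h1
  refine Set.Finite.of_finite_fibers (f := fun y => D.deg y) ?_ ?_
  · refine (Set.finite_Icc (0 : ℤ) (D.T D.H D.H x)).subset ?_
    rintro _ ⟨y, ⟨a, b, hb, hab, h⟩, rfl⟩
    have h1 := key y a b h
    have ha : 0 < a := by linarith
    constructor
    · by_contra hcon
      push Not at hcon
      have h2 : a * D.deg y < 0 := mul_neg_of_pos_of_neg ha hcon
      have h3 : 0 < b * D.T D.H D.H x := mul_pos hb hpos
      linarith
    · by_contra hcon
      push Not at hcon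
      nlinarith
  · rintro _ ⟨y, ⟨a, b, hb, hab, h⟩, rfl⟩
    refine (D.weil.tors_fin.image fun t => y + t).subset ?_
    rintro y' ⟨⟨a', b', hb', hab', h'⟩, heq⟩
    simp only [Set.mem_preimage, Set.mem_singleton_iff] at heq
    refine ⟨y' - y, ?_, add_sub_cancel y y'⟩
    have h1 := key y a b h
    have h2 := key y' a' b' h'
    rw [heq] at h2
    have h3 : a' * b = a * b' := by
      have h4 : D.T D.H D.H x * (a' * b - a * b') = 0 := by
        have h5 : a' * (b * D.T D.H D.H x) = a * (b' * D.T D.H D.H x) := by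
          rw [← h1, ← h2]; ring
        linarith
      rcases mul_eq_zero.1 h4 with h5 | h5
      · exact absurd h5 hpos.ne'
      · linarith
    have ha : 0 < a := by linarith
    have ha' : 0 < a' := by linarith
    refine ⟨a * a', (mul_pos ha ha').ne', ?_⟩
    have e1 : (a * a') • y = (a' * b) • D.incl x := by
      rw [mul_comm a a', mul_smul, h, smul_smul]
    have e2 : (a * a') • y' = (a * b') • D.incl x := by
      rw [mul_smul, h', smul_smul]
    rw [smul_sub, e1, e2, h3, sub_self]

/-- Numerical dimension one: if `H^1(Y, -x) ≠ 0` then `x` is semiample. -/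
theorem dim_one (x : D.P) (hx : D.Nef x) (hx0 : x ≠ 0) (hsq : D.T D.H x x = 0)
    (h1 : D.h 1 (-x) ≠ 0) : D.SA x := by
  have hpos := D.deg_pos x hx hx0 hsq
  have hfin := D.fin_set x hpos
  choose j0 hj0 using D.weil.lift
  obtain ⟨J, hJ⟩ := (hfin.image j0).bddAbove
  obtain ⟨y, a, b, hb, hab, hy, hyE⟩ := D.destab x hx hsq hpos h1 J
  have h2 : j0 y ≤ J := hJ ⟨y, ⟨a, b, hb, hab, hy⟩, rfl⟩
  have ha : 0 < a := by linarith
  have h3 := D.weil.eff_mul a y ha (hj0 y J h2 hyE)
  rw [hy, ← D.weil.add_incl.zsmul] at h3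
  have h4 := D.coh.kmm (b • x) ((D.lines.nef_mul b x hb).2 hx) (D.weil.eff_incl _ h3)
  exact (D.lines.sa_mul b x hb).1 h4

/-- a nef class with `h^0 + h^2 ≠ 0` is semiample -/
private lemma of_even (x : D.P) (hx : D.Nef x) (hx0 : x ≠ 0) (h : D.h 0 x ≠ 0 ∨ D.h 2 x ≠ 0) :
    D.SA x := by
  rcases h with h | h
  · exact D.coh.kmm x hx h
  · by_cases hsq : D.T D.H x x = 0
    · refine D.dim_one x hx hx0 hsq ?_
      rw [D.coh.serre]
      exact h
    · exact absurd (D.coh.kv x hx hsq) h

private lemma h3_zero (x : D.P) (hx : D.Nef x) (hx0 : x ≠ 0) : D.h 3 x = 0 := by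
  have h := D.coh.serre 0 x
  rw [D.coh.h0_neg x hx hx0] at h
  exact h.symm

/-- If `x ≠ 0` is nef and `H^i(Y, x) ≠ 0` for some `i` then `x` is semiample. -/
theorem of_any (x : D.P) (hx : D.Nef x) (hx0 : x ≠ 0) (i : Fin 4) (h : D.h i x ≠ 0) :
    D.SA x := by
  have h3 := D.h3_zero x hx hx0
  have hr := D.coh.rr x
  have hT := D.lines.nonneg x x x hx hx hx
  have hc := D.lines.miyaoka x hx
  rw [h3] at hr
  by_contra hcon
  have h0 : D.h 0 x = 0 := by
    by_contra h'
    exact hcon (D.of_even x hx hx0 (Or.inl h'))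
  have h2 : D.h 2 x = 0 := by
    by_contra h'
    exact hcon (D.of_even x hx hx0 (Or.inr h'))
  have h1 : D.h 1 x = 0 := by
    rw [h0, h2] at hr
    push_cast at hr
    have : (0 : ℤ) ≤ (D.h 1 x : ℤ) := Int.natCast_nonneg _
    have h5 : (D.h 1 x : ℤ) = 0 := by linarith
    exact_mod_cast h5
  fin_cases i
  · exact h h0
  · exact h h1
  · exact h h2
  · exact h h3

/-- A nef class which is not semiample: the cube and the degree of the second Chern class are zero,
and all nonzero multiples are acyclic. -/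
theorem not_sa (x : D.P) (hx : D.Nef x) (hs : ¬ D.SA x) :
    D.T x x x = 0 ∧ D.c x = 0 ∧ ∀ (m : ℤ) (i : Fin 4), m ≠ 0 → D.h i (m • x) = 0 := by
  have hx0 : x ≠ 0 := fun h => hs (h ▸ D.lines.sa_zero)
  have hz : ∀ i, D.h i x = 0 := by
    intro i
    by_contra h'
    exact hs (D.of_any x hx hx0 i h')
  have hr := D.coh.rr x
  have hT := D.lines.nonneg x x x hx hx hx
  have hc := D.lines.miyaoka x hx
  rw [hz, hz, hz, hz] at hr
  push_cast at hr
  refine ⟨by linarith, by linarith, ?_⟩
  have key : ∀ (i : Fin 4) (m : ℤ), 0 < m → D.h i (m • x) = 0 := by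
    intro i m hm
    by_contra h
    have h1 : m • x ≠ 0 := by
      intro h'
      apply hs
      rw [← D.lines.sa_mul m x hm, h']
      exact D.lines.sa_zero
    exact hs ((D.lines.sa_mul m x hm).1 (D.of_any _ ((D.lines.nef_mul m x hm).2 hx) h1 i h))
  intro m i hm
  rcases lt_or_gt_of_ne hm with h1 | h1
  · have h2 := key (Fin.rev i) (-m) (by linarith)
    rw [← D.coh.serre, neg_smul, neg_neg] at h2
    exact h2
  · exact key i m h1

end CY

open Pool.Agent.H33.MN

/-- A germ of type F: for every model the special fibre is irreducible with canonical singularities,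
`K = 0` and `H^1(O) = H^2(O) = 0`, and simply connected, since the generic member is simply
connected. -/
structure TypeF {PX : Type} [AddCommGroup PX] (g : Germ PX) where
  /-- the special fibre of the model -/
  fib : g.Mo → CY
  /-- the restriction of Cartier classes to the special fibre -/
  cls : ∀ mu, g.Lam → (fib mu).P
  cls_mul : ∀ mu x (j : ℕ), g.Car mu x → g.Car mu (j • x) → cls mu (j • x) = (j : ℤ) • cls mu x
  h_eq : ∀ mu x (i : Fin 4), g.Car mu x → g.h mu i x = (fib mu).h i (cls mu x)
  /-- the special fibre has dimension three -/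
  h_top : ∀ mu x i, 4 ≤ i → g.h mu i x = 0
  nef : ∀ mu x, g.Car mu x → g.Nef mu x → (fib mu).Nef (cls mu x)
  sa : ∀ mu x, g.Car mu x → (fib mu).SA (cls mu x) → g.SA mu x

/-- **Section 5 for germs of type F**: a nef Cartier class `x` is semiample on the special fibre, or
all its positive multiples are acyclic there. -/
theorem TypeF.dichotomy {PX : Type} [AddCommGroup PX] {g : Germ PX} (F : TypeF g) (mu : g.Mo)
    (x : g.Lam) (hcar : ∀ j : ℕ, 0 < j → g.Car mu (j • x)) (hx : g.Nef mu x) :
    g.SA mu x ∨ ∀ j : ℕ, 0 < j → g.Acyclic mu (j • x) := by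
  have hc1 : g.Car mu x := by
    have := hcar 1 one_pos
    rwa [one_smul] at this
  by_cases hs : (F.fib mu).SA (F.cls mu x)
  · exact Or.inl (F.sa mu x hc1 hs)
  · right
    intro j hj i
    rcases Nat.lt_or_ge i 4 with hi | hi
    · have h1 := ((F.fib mu).not_sa _ (F.nef mu x hc1 hx) hs).2.2 (j : ℤ) ⟨i, hi⟩ (by omega)
      rw [← F.cls_mul mu x j hc1 (hcar j hj)] at h1
      have h2 := F.h_eq mu (j • x) ⟨i, hi⟩ (hcar j hj)
      rw [h1] at h2
      exact h2
    · exact F.h_top mu _ i hi

end Pool.Agent.H13.MN
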